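import Pool.Agent.X187.FH.Fin

/-!
# A hereditarily frequently hypercyclic operator that is not hereditarily `𝒰`-frequently hypercyclic

Over `ℝ` and over `ℂ` there is an infinite-dimensional separable Banach space `X` and a continuous
linear operator `T` on `X` which is hereditarily frequently hypercyclic but not hereditarily
`𝒰`-frequently hypercyclic. The space consists of the sequences `y` with `|y_j|/(j+1) → 0` and with
`(1/n_j) ∑_{n_j/2 ≤ m ≤ n_j} |y_m| → 0`, where `n_j = 4^((j+1)^2)`; `T` is the backward shift.
-/

set_option autoImplicit false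

open Filter Topology

namespace Pool.Agent.Results.MP_5ec4bc_an.BanachCounterexample

/-- The visit set `𝒩_T(x, V) = {n : T^n x ∈ V}`. -/
def visits {X : Type} (T : X → X) (x : X) (V : Set X) : Set ℕ := {n | T^[n] x ∈ V}

/-- The lower density `liminf |A ∩ [1,N]| / N`. -/
noncomputable def lowerDensity (A : Set ℕ) : ℝ :=
  liminf (fun N : ℕ => ((A ∩ Set.Icc 1 N).ncard : ℝ) / N) atTop

/-- The upper density `limsup |A ∩ [1,N]| / N`. -/
noncomputable def upperDensity (A : Set ℕ) : ℝ :=
  limsup (fun N : ℕ => ((A ∩ Set.Icc 1 N).ncard : ℝ) / N) atTop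

/-- The family `𝒟` of the sets of positive lower density. -/
def familyD : Set (Set ℕ) := {A | 0 < lowerDensity A}

/-- The family `𝒰` of the sets of positive upper density. -/
def familyU : Set (Set ℕ) := {A | 0 < upperDensity A}

/-- `T` is hereditarily `F`-hypercyclic: for every countable index set `I`, all non-empty open sets
`V i` and all `A i ∈ F` there is `x` with `𝒩_T(x, V i) ∩ A i ∈ F` for all `i`. -/
def HereditarilyHypercyclic {X : Type} [TopologicalSpace X] (F : Set (Set ℕ)) (T : X → X) : Prop :=
  ∀ (I : Type) [Countable I] (V : I → Set X) (A : I → Set ℕ),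
    (∀ i, IsOpen (V i)) → (∀ i, (V i).Nonempty) → (∀ i, A i ∈ F) →
      ∃ x : X, ∀ i, visits T x (V i) ∩ A i ∈ F

/-- Over `𝕜 = ℝ` and over `𝕜 = ℂ` there is an infinite-dimensional separable Banach space `X` (in
particular a Polish topological vector space) and a continuous linear operator `T` on `X` that is
hereditarily frequently hypercyclic but not hereditarily `𝒰`-frequently hypercyclic. In fact there
are ONE non-empty open set `V` and ONE set `A` of positive upper density such that
`𝒩_T(x, V) ∩ A` has upper density `0` for EVERY `x`. -/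
theorem result (𝕜 : Type) [RCLike 𝕜] :
    ∃ (X : Type) (_ : NormedAddCommGroup X) (_ : NormedSpace 𝕜 X) (T : X →L[𝕜] X),
      CompleteSpace X ∧ TopologicalSpace.SeparableSpace X ∧ PolishSpace X ∧
      ¬ FiniteDimensional 𝕜 X ∧
      HereditarilyHypercyclic familyD (T : X → X) ∧
      ¬ HereditarilyHypercyclic familyU (T : X → X) ∧
      ∃ (V : Set X) (A : Set ℕ), IsOpen V ∧ V.Nonempty ∧ 0 < upperDensity A ∧
        ∀ x : X, upperDensity (visits (T : X → X) x V ∩ A) = 0 := by
  have hP : PolishSpace (X187.FH.X 𝕜) := by
    have : SecondCountableTopology (X187.FH.X 𝕜) :=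
      UniformSpace.secondCountable_of_separable _
    infer_instance
  exact ⟨X187.FH.X 𝕜, inferInstance, inferInstance, X187.FH.TT, inferInstance, inferInstance, hP,
    X187.FH.not_finDim, X187.FH.heredD, X187.FH.not_heredU, X187.FH.V0 𝕜, X187.FH.A0,
    X187.FH.V0_open, X187.FH.V0_nonempty, X187.FH.A0_upper, X187.FH.upper_zero⟩

end Pool.Agent.Results.MP_5ec4bc_an.BanachCounterexample
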